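import Mathlib
import Pool.Agent.N741.HB.Stm5

/-!
# HK/K4: from many solutions to the ultraproduct

Project HK (helper741), proof by helper713.
-/

set_option autoImplicit false

namespace Pool.Agent.N713.HK

open Filter MvPolynomial Pool.Agent.Y902.GN Pool.Agent.N741.HB Pool.Agent.N741.HC
  Pool.Agent.N741.HK

theorem exp_le_two_pow {x : ℝ} {F : ℕ} (hx : x ≤ F) : Real.exp x ≤ (2 : ℝ) ^ (2 * F + 2) := by
  have h1 : Real.exp x ≤ Real.exp (F : ℝ) := Real.exp_le_exp.2 hx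
  have h2 : Real.exp (F : ℝ) = Real.exp 1 ^ F := by
    rw [← Real.exp_nat_mul, mul_one]
  have h3 : Real.exp 1 ≤ 4 := by
    have := Real.exp_one_lt_d9
    linarith
  have h4 : Real.exp 1 ^ F ≤ (4 : ℝ) ^ F := pow_le_pow_left₀ (Real.exp_pos 1).le h3 F
  have h5 : (4 : ℝ) ^ F = (2 : ℝ) ^ (2 * F) := by
    rw [pow_mul]; norm_num
  have h6 : (2 : ℝ) ^ (2 * F) ≤ (2 : ℝ) ^ (2 * F + 2) :=
    pow_le_pow_right₀ (by norm_num) (by omega)
  linarith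

/-- K4 -/
theorem ult (hs : S_solP) (hm : S_monK) : S_ult := by
  classical
  intro n P κ ε hn hε Y ι T u v e e₀ r b hYT hu hv hT hinj
  obtain ⟨C, hC⟩ := hs n P κ
  have hne : ∀ᶠ ν in (Uf : Filter ℕ), (T ν).Nonempty := by
    filter_upwards [hYT] with ν h
    have y1 : (1 : ℝ) ≤ (Y ν : ℝ) := by exact_mod_cast h.1
    have h1 : (1 : ℝ) ≤ (Y ν : ℝ) ^ ε := Real.one_le_rpow y1 hε.le
    have h2 : (0 : ℝ) < ((T ν).card : ℝ) := by linarith [h.2]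
    exact Finset.card_pos.1 (by exact_mod_cast h2)
  have hrpow : ∀ ν, 1 ≤ Y ν → (Y ν : ℝ) ^ (1 / ((ν : ℝ) + 1)) ≤ (Y ν : ℝ) := by
    intro ν h
    calc (Y ν : ℝ) ^ (1 / ((ν : ℝ) + 1)) ≤ (Y ν : ℝ) ^ (1 : ℝ) := by
          apply Real.rpow_le_rpow_of_exponent_le (by exact_mod_cast h)
          rw [div_le_one (by positivity)]
          have : (0 : ℝ) ≤ (ν : ℝ) := Nat.cast_nonneg _
          linarith
      _ = (Y ν : ℝ) := Real.rpow_one _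
  have hY : ∀ m : ℕ, ∀ᶠ ν in (Uf : Filter ℕ), m ≤ Y ν := by
    intro m
    filter_upwards [ev_ge m, hYT, hT, hne] with ν h1 h2 h3 h4
    obtain ⟨τ, hτ⟩ := h4
    have h5 : (r ν τ : ℝ) ≤ (Y ν : ℝ) := (h3 τ hτ).2.1.trans (hrpow ν h2.1)
    have h6 : r ν τ ≤ Y ν := by exact_mod_cast h5
    have h7 := (h3 τ hτ).1
    omega
  have hbig : Big Y T := big_of_card hε (hY 2) (hYT.mono fun _ h => h.2)
  -- the bounds
  obtain ⟨F, hF⟩ : ∃ F : ℕ → ℕ, ∀ ν, F ν =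
    ⌊((1 : ℕ) : ℝ) * (Y ν : ℝ) ^ (1 / ((ν : ℝ) + 1))⌋₊ + 1 := ⟨_, fun _ => rfl⟩
  have fewF : Few Y F := (few_rpow hY 1).mono (Filter.Eventually.of_forall fun ν => (hF ν).le)
  have hFx : ∀ (ν x : ℕ), (x : ℝ) ≤ (Y ν : ℝ) ^ (1 / ((ν : ℝ) + 1)) → x < F ν := by
    intro ν x hx
    have : x ≤ ⌊((1 : ℕ) : ℝ) * (Y ν : ℝ) ^ (1 / ((ν : ℝ) + 1))⌋₊ := by
      apply Nat.le_floor
      rw [Nat.cast_one, one_mul]
      exact hx
    rw [hF]
    omega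
  have hFy : ∀ ν, (Y ν : ℝ) ^ (1 / ((ν : ℝ) + 1)) ≤ (F ν : ℝ) := by
    intro ν
    rw [hF]
    have := Nat.lt_floor_add_one (((1 : ℕ) : ℝ) * (Y ν : ℝ) ^ (1 / ((ν : ℝ) + 1)))
    push_cast at this ⊢
    linarith
  -- constant exponents
  obtain ⟨T1, a1, a2, a3⟩ := hbig.fiber (fun ν τ => (e ν τ, e₀ ν τ, r ν τ))
    (fun ν => (Fintype.piFinset fun _ : Fin n => Fintype.piFinset fun _ : Fin P =>
      Finset.range (F ν)) ×ˢ ((Fintype.piFinset fun _ : Fin P => Finset.range (F ν)) ×ˢ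
        Finset.range (F ν)))
    (by
      filter_upwards [hT] with ν h τ hτ
      obtain ⟨-, h2, h3, h4, -⟩ := h τ hτ
      rw [Finset.mem_product, Finset.mem_product]
      refine ⟨?_, ?_, ?_⟩
      · rw [Fintype.mem_piFinset]
        intro i
        rw [Fintype.mem_piFinset]
        intro j
        rw [Finset.mem_range]
        exact hFx ν _ (h3 i j)
      · rw [Fintype.mem_piFinset]
        intro j
        rw [Finset.mem_range]
        exact hFx ν _ (h4 j)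
      · rw [Finset.mem_range]
        exact hFx ν _ h2) (by
      have h4 := ((fewF.pow P).pow n).mul ((fewF.pow P).mul fewF)
      refine h4.mono (Filter.Eventually.of_forall fun ν => ?_)
      rw [Finset.card_product, Finset.card_product, Fintype.card_piFinset_const,
        Fintype.card_piFinset_const, Finset.card_range])
  obtain ⟨qq, hqq⟩ : ∃ qq : ℕ → (Fin n → Fin P → ℕ) × (Fin P → ℕ) × ℕ,
      ∀ᶠ ν in (Uf : Filter ℕ), (∀ τ ∈ T1 ν, (e ν τ, e₀ ν τ, r ν τ) = qq ν) := by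
    have h4 : ∀ᶠ ν in (Uf : Filter ℕ), ∃ qq : (Fin n → Fin P → ℕ) × (Fin P → ℕ) × ℕ,
        ∀ τ ∈ T1 ν, (e ν τ, e₀ ν τ, r ν τ) = qq := by
      filter_upwards [a3, a2.nonempty] with ν a b
      obtain ⟨p0, hp0⟩ := b
      exact ⟨(e ν p0, e₀ ν p0, r ν p0), fun p hp => a p hp p0 hp0⟩
    exact h4.choice
  obtain ⟨e', he'⟩ : ∃ e' : ℕ → Fin n → Fin P → ℕ, ∀ ν, e' ν = (qq ν).1 := ⟨_, fun _ => rfl⟩
  obtain ⟨f0, hf0⟩ : ∃ f0 : ℕ → Fin P → ℕ, ∀ ν, f0 ν = (qq ν).2.1 := ⟨_, fun _ => rfl⟩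
  obtain ⟨r', hr'⟩ : ∃ r' : ℕ → ℕ, ∀ ν, r' ν = (qq ν).2.2 := ⟨_, fun _ => rfl⟩
  have hcst : ∀ᶠ ν in (Uf : Filter ℕ), ∀ τ ∈ T1 ν, e ν τ = e' ν ∧ e₀ ν τ = f0 ν ∧ r ν τ = r' ν := by
    filter_upwards [hqq] with ν h τ hτ
    rw [he', hf0, hr', ← h τ hτ]
    exact ⟨rfl, rfl, rfl⟩
  -- bounds for the constant exponents
  have hbd : ∀ᶠ ν in (Uf : Filter ℕ), ν ≤ r' ν ∧ r' ν ≤ F ν ∧ (∀ i j, e' ν i j ≤ F ν) ∧
      ∀ j, f0 ν j ≤ F ν := by
    filter_upwards [hT, a1, hcst, a2.nonempty] with ν h1 h2 h3 h4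
    obtain ⟨τ, hτ⟩ := h4
    obtain ⟨b1, b2, b3, b4, -⟩ := h1 τ (h2 hτ)
    obtain ⟨c1, c2, c3⟩ := h3 τ hτ
    rw [c1] at b3
    rw [c2] at b4
    rw [c3] at b1 b2
    exact ⟨b1, (hFx ν _ b2).le, fun i j => (hFx ν _ (b3 i j)).le, fun j => (hFx ν _ (b4 j)).le⟩
  obtain ⟨M, hM⟩ : ∃ M : ℕ → ℕ, ∀ ν, M ν = P * F ν := ⟨_, fun _ => rfl⟩
  have fewM : Few Y M := ((Few.const hY P).mul fewF).mono
    (Filter.Eventually.of_forall fun ν => (hM ν).le)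
  have fewr : Few Y r' := fewF.mono (hbd.mono fun ν h => h.2.1)
  obtain ⟨w0, hw0⟩ : ∃ w0 : ℕ → ℕ, ∀ ν, w0 ν = 2 * F ν + 2 := ⟨_, fun _ => rfl⟩
  have feww0 : Few Y w0 := (Few.add hY ((Few.const hY 2).mul fewF) (Few.const hY 2)).mono
    (Filter.Eventually.of_forall fun ν => (hw0 ν).le)
  obtain ⟨L, hL⟩ : ∃ L : ℕ → ℕ, ∀ ν, L ν = Nat.log 2 (Y ν + 2) + 1 := ⟨_, fun _ => rfl⟩
  have fewL : Few Y L := by
    intro c
    filter_upwards [ev_log_pow hY c] with ν hν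
    rw [hL]
    exact hν
  obtain ⟨w1, hw1⟩ : ∃ w1 : ℕ → ℕ, ∀ ν, w1 ν = (w0 ν + L ν) * (C * ((M ν + 1) * (r' ν + 1))) :=
    ⟨_, fun _ => rfl⟩
  have few1 := Few.const hY 1
  have feww1 : Few Y w1 := ((Few.add hY feww0 fewL).mul ((Few.const hY C).mul
    ((Few.add hY fewM few1).mul (Few.add hY fewr few1)))).mono
    (Filter.Eventually.of_forall fun ν => (hw1 ν).le)
  obtain ⟨w, hw⟩ : ∃ w : ℕ → ℕ, ∀ ν, w ν = w1 ν + w0 ν * (r' ν + 1) := ⟨_, fun _ => rfl⟩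
  have feww : Few Y w := (Few.add hY feww1 (feww0.mul (Few.add hY fewr few1))).mono
    (Filter.Eventually.of_forall fun ν => (hw ν).le)
  -- the sizes of `u` and `v`
  have hintbd : ∀ (ν : ℕ) (a : ℤ), ((|a| : ℤ) : ℝ) ≤ Real.exp ((Y ν : ℝ) ^ (1 / ((ν : ℝ) + 1))) →
      |a| ≤ (2 : ℤ) ^ w0 ν := by
    intro ν a h
    have h1 := h.trans (exp_le_two_pow (hFy ν))
    rw [← hw0] at h1
    exact_mod_cast h1
  have hY2 : ∀ ν, (Y ν : ℤ) + 2 ≤ 2 ^ L ν := by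
    intro ν
    have := Nat.lt_pow_succ_log_self (b := 2) (by norm_num) (Y ν + 2)
    rw [hL]
    have h2 : Y ν + 2 ≤ 2 ^ (Nat.log 2 (Y ν + 2) + 1) := this.le
    exact_mod_cast h2
  obtain ⟨G, hG⟩ : ∃ G : ℕ → ℕ, ∀ ν, G ν = r' ν + r' ν * M ν := ⟨_, fun _ => rfl⟩
  have fewG : Few Y G := (Few.add hY fewr (fewr.mul fewM)).mono
    (Filter.Eventually.of_forall fun ν => (hG ν).le)
  -- the data
  have hsum : ∀ᶠ ν in (Uf : Filter ℕ), (∀ i, ∑ j, e' ν i j ≤ M ν) ∧ ∑ j, f0 ν j ≤ M ν := by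
    filter_upwards [hbd] with ν h
    obtain ⟨-, -, h3, h4⟩ := h
    rw [hM]
    constructor
    · intro i
      refine (Finset.sum_le_card_nsmul _ _ _ fun j _ => h3 i j).trans ?_
      simp
    · refine (Finset.sum_le_card_nsmul _ _ _ fun j _ => h4 j).trans ?_
      simp
  have hmain : ∀ᶠ ν in (Uf : Filter ℕ), ∀ τ ∈ T1 ν, v ν ≠ 0 ∧ (∀ j, b ν τ j ≠ 0) ∧
      (∀ J : Finset (Fin n), J.Nonempty → ∑ i ∈ J, ((v ν ^ (r' ν - 1) * u ν i : ℤ) : ℂ) *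
        ∏ j, b ν τ j ^ (e' ν i j + (r' ν - 1) * f0 ν j) ≠ 0) ∧
      ∃ (Q : Cod κ C (Y ν) P (b ν τ)) (e'' : ℕ) (ζ : Fin Q.k → ℤ), 1 ≤ e'' ∧ e'' ≤ κ ∧
      (∀ l, |ζ l| ≤ 2 ^ w ν) ∧ (∑ i, ((v ν ^ (r' ν - 1) * u ν i : ℤ) : ℂ) * ((Q.D : ℂ) ^
        (r' ν + r' ν * M ν - (∑ j, e' ν i j + (r' ν - 1) * ∑ j, f0 ν j)) *
        ∏ j, vl Q.α (Q.vb j) ^ (e' ν i j + (r' ν - 1) * f0 ν j))) ^ e'' = vl Q.α ζ ^ r' ν := by
    filter_upwards [hT, a1, hcst, hu, hv, hY 1, hsum, hbd, ev_ge 1] with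
      ν h1 h2 h3 h4 h5 h6 h7 h8 h9 τ hτ
    obtain ⟨-, -, -, -, hNV, K, fK, nK, σ, y, z, hdeg, hy, hyb, heq⟩ := h1 τ (h2 hτ)
    obtain ⟨c1, c2, c3⟩ := h3 τ hτ
    rw [c1] at hNV heq
    rw [c2, c3] at heq
    have hb : (fun j => σ (y j)) = b ν τ := funext hyb
    have hb0 : ∀ j, b ν τ j ≠ 0 := by
      intro j
      rw [← hyb j]
      exact (map_ne_zero σ).2 (hy j).1
    have hv0 : v ν ≠ 0 := by
      intro h0
      have h10 := congrArg σ heq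
      rw [h0] at h10
      simp only [Int.cast_zero, zero_mul, map_zero, map_sum, map_mul, map_intCast, map_prod,
        map_pow, hyb] at h10
      refine hNV Finset.univ ?_ h10
      exact ⟨⟨0, hn⟩, Finset.mem_univ _⟩
    refine ⟨hv0, hb0, ?_, ?_⟩
    · intro J hJ
      have h10 : ∑ i ∈ J, ((v ν ^ (r' ν - 1) * u ν i : ℤ) : ℂ) *
          ∏ j, b ν τ j ^ (e' ν i j + (r' ν - 1) * f0 ν j) =
          ((v ν : ℂ) ^ (r' ν - 1) * ∏ j, b ν τ j ^ ((r' ν - 1) * f0 ν j)) *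
            ∑ i ∈ J, (u ν i : ℂ) * ∏ j, b ν τ j ^ e' ν i j := by
        rw [Finset.mul_sum]
        refine Finset.sum_congr rfl fun i _ => ?_
        simp only [pow_add, Finset.prod_mul_distrib]
        push_cast
        ring
      rw [h10]
      refine mul_ne_zero (mul_ne_zero (pow_ne_zero _ (by exact_mod_cast hv0)) ?_) (hNV J hJ)
      exact Finset.prod_ne_zero_iff.2 fun j _ => pow_ne_zero _ (hb0 j)
    · have hr1 : 1 ≤ r' ν := h9.trans h8.1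
      have h10 := hC K σ (Y ν) y z (u ν) (v ν) (e' ν) (f0 ν) (r' ν) (M ν) (2 ^ w0 ν) hdeg h6 hy
        (fun i => by
          push_cast
          exact hintbd ν _ (h4 i).2)
        (by
          push_cast
          exact hintbd ν _ h5) Nat.one_le_two_pow hr1 h7.1 h7.2 heq
      rw [hb] at h10
      obtain ⟨Q, e'', ζ, d1, d2, d3, d4⟩ := h10
      refine ⟨Q, e'', ζ, d1, d2, fun l => (d3 l).trans ?_, d4⟩
      have h11 : ((2 ^ w0 ν : ℕ) : ℤ) * ((Y ν : ℤ) + 2) ≤ 2 ^ (w0 ν + L ν) := by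
        push_cast
        rw [pow_add]
        exact mul_le_mul_of_nonneg_left (hY2 ν) (by positivity)
      calc (((2 ^ w0 ν : ℕ) : ℤ) * ((Y ν : ℤ) + 2)) ^ (C * ((M ν + 1) * (r' ν + 1)))
          ≤ (2 ^ (w0 ν + L ν)) ^ (C * ((M ν + 1) * (r' ν + 1))) :=
            pow_le_pow_left₀ (by positivity) h11 _
        _ = 2 ^ w1 ν := by rw [← pow_mul, hw1]
        _ ≤ 2 ^ w ν := pow_le_pow_right₀ (by norm_num) (by rw [hw]; omega)
  have hv0 : ∀ᶠ ν in (Uf : Filter ℕ), v ν ≠ 0 := by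
    filter_upwards [hmain, a2.nonempty] with ν h1 h2
    obtain ⟨τ, hτ⟩ := h2
    exact (h1 τ hτ).1
  obtain ⟨T', C', H, b1, b2, b3, b4⟩ := hm Y hY ι T1 a2 κ C n P b hn
    (by
      filter_upwards [hinj, a1, hcst] with ν h1 h2 h3 τ hτ τ' hτ' h
      exact h1 τ (h2 hτ) τ' (h2 hτ') ((h3 τ hτ).1.trans (h3 τ' hτ').1.symm) h)
    (fun ν i j => e' ν i j + (r' ν - 1) * f0 ν j)
    (fun ν i => r' ν + r' ν * M ν - (∑ j, e' ν i j + (r' ν - 1) * ∑ j, f0 ν j))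
    G r' w (fun ν i => v ν ^ (r' ν - 1) * u ν i) feww fewr fewG
    (fun c => by
      filter_upwards [ev_ge c, hbd] with ν h1 h2
      exact h1.trans h2.1)
    (by
      filter_upwards [hsum, hbd, ev_ge 1] with ν h1 h2 h3 i
      have hr1 : 1 ≤ r' ν := h3.trans h2.1
      rw [Finset.sum_add_distrib, ← Finset.mul_sum, hG]
      have h4 := h1.1 i
      have h5 : (r' ν - 1) * ∑ j, f0 ν j ≤ (r' ν - 1) * M ν := Nat.mul_le_mul_left _ h1.2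
      have h6 : (r' ν - 1) * M ν + M ν = r' ν * M ν := by
        obtain ⟨r0, hr0⟩ : ∃ r0, r' ν = r0 + 1 := ⟨r' ν - 1, by omega⟩
        rw [hr0, Nat.add_sub_cancel]
        ring
      omega)
    (by
      filter_upwards [hu, hv, hv0, hbd, ev_ge 1] with ν h1 h2 h3 h4 h5 i
      refine ⟨mul_ne_zero (pow_ne_zero _ h3) (h1 i).1, ?_⟩
      rw [abs_mul, abs_pow]
      have h6 := hintbd ν _ (h1 i).2
      have h7 := hintbd ν _ h2
      calc |v ν| ^ (r' ν - 1) * |u ν i| ≤ (2 ^ w0 ν) ^ (r' ν - 1) * 2 ^ w0 ν :=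
            mul_le_mul (pow_le_pow_left₀ (abs_nonneg _) h7 _) h6 (abs_nonneg _) (by positivity)
        _ = 2 ^ (w0 ν * (r' ν - 1) + w0 ν) := by rw [← pow_mul, ← pow_add]
        _ ≤ 2 ^ w ν := by
            apply pow_le_pow_right₀ (by norm_num)
            rw [hw]
            have : w0 ν * (r' ν - 1) ≤ w0 ν * r' ν := Nat.mul_le_mul_left _ (by omega)
            nlinarith)
    (by
      filter_upwards [hmain] with ν h τ hτ
      exact (h τ hτ).2)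
  refine ⟨T', C', H, e', hY, ?_, b2, ?_, ?_, b4⟩
  · filter_upwards [a1, b1] with ν h1 h2
    exact h2.trans h1
  · filter_upwards [hcst, b1] with ν h1 h2 τ hτ
    exact (h1 τ (h2 hτ)).1
  · filter_upwards [b3] with ν h
    refine ⟨h.1, h.2.1, h.2.2.1, h.2.2.2.1, fun i i' => ?_⟩
    have h1 := h.2.2.2.2 i i'
    have h2 : (fun j => (((e' ν i j + (r' ν - 1) * f0 ν j : ℕ) : ℤ)) -
        ((e' ν i' j + (r' ν - 1) * f0 ν j : ℕ) : ℤ)) =
        fun j => (e' ν i j : ℤ) - (e' ν i' j : ℤ) := by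
      funext j
      push_cast
      ring
    rw [h2] at h1
    exact h1

end Pool.Agent.N713.HK
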